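import Mathlib

namespace Pool.Agent.Results.MP_8dadf2_al.No

/-- The Teichmüller vector `⟨r⟩ = (r, r^p, r^(p^2), …)`. -/
def teich {A : Type} [Ring A] (p : ℕ) (r : A) : ℕ → A := fun k => r ^ p ^ k

lemma pow_eq {A : Type} [Ring A] (d e z : A) (n : ℕ) :
    (d * z * e) ^ (n + 1) = d * (z * (e * d * z) ^ n) * e := by
  induction n with
  | zero => simp
  | succ n ih => rw [pow_succ, ih, pow_succ]; simp only [mul_assoc]

def F {A : Type} [Ring A] (y z : A) : Fin 6 → A :=
  ![(y + 1) * z * (y * y - y), y * z * (y * y - 1), (y - 1) * z * (y * y + y),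
    (y * y - y) * z * (y + 1), (y * y - 1) * z * y, (y * y + y) * z * (y - 1)]

lemma rel {A : Type} [Ring A] (y z : A) (n : ℕ) :
    F y z 0 ^ (n + 1) - 2 * F y z 1 ^ (n + 1) + F y z 2 ^ (n + 1) + F y z 3 ^ (n + 1) -
      2 * F y z 4 ^ (n + 1) + F y z 5 ^ (n + 1) = 0 := by
  have e0 : (y * y - y) * (y + 1) = y * y * y - y := by noncomm_ring
  have e1 : (y * y - 1) * y = y * y * y - y := by noncomm_ring
  have e2 : (y * y + y) * (y - 1) = y * y * y - y := by noncomm_ring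
  have e3 : (y + 1) * (y * y - y) = y * y * y - y := by noncomm_ring
  have e4 : y * (y * y - 1) = y * y * y - y := by noncomm_ring
  have e5 : (y - 1) * (y * y + y) = y * y * y - y := by noncomm_ring
  simp only [F, Matrix.cons_val, pow_eq, e0, e1, e2, e3, e4, e5]
  generalize z * ((y * y * y - y) * z) ^ n = w
  noncomm_ring

theorem result (p : ℕ) (hp : p.Prime) : ∃ (S : Type) (r : ℕ) (f : Fin r → FreeAlgebra ℤ S),
    1 ≤ r ∧ Function.Injective f ∧ (∀ i, f i ≠ 0) ∧ (∀ i j, i ≠ j → f i ≠ -f j) ∧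
      ¬ LinearIndependent ℤ fun i => teich p (f i) := by
  let φ : FreeAlgebra ℤ Bool →ₐ[ℤ] Matrix (Fin 2) (Fin 2) ℤ :=
    FreeAlgebra.lift ℤ fun b => if b then !![2, 0; 0, 4] else !![0, 1; 0, 0]
  have hφ : ∀ i, φ (F (FreeAlgebra.ι ℤ true) (FreeAlgebra.ι ℤ false) i) 0 1 =
      ![36, 30, 20, 10, 12, 18] i := by
    intro i
    fin_cases i <;> simp [F, φ, Matrix.one_fin_two]
  refine ⟨Bool, 6, F (FreeAlgebra.ι ℤ true) (FreeAlgebra.ι ℤ false), by norm_num, ?_, ?_, ?_, ?_⟩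
  · intro i j h
    have := hφ i
    rw [h, hφ j] at this
    clear h; revert i j; decide
  · intro i h
    have := hφ i
    rw [h, map_zero, Matrix.zero_apply] at this
    clear h; revert i; decide
  · intro i j _ h
    have := hφ i
    rw [h, map_neg, Matrix.neg_apply, hφ j] at this
    clear h; revert i j; decide
  · rw [Fintype.not_linearIndependent_iff]
    refine ⟨![1, -2, 1, 1, -2, 1], ?_, 0, by simp⟩
    ext1 k
    obtain ⟨n, hn⟩ : ∃ n, p ^ k = n + 1 := ⟨p ^ k - 1, by have := pow_pos hp.pos k; omega⟩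
    rw [Finset.sum_apply, Fin.sum_univ_six, Pi.zero_apply,
      ← rel (FreeAlgebra.ι ℤ true) (FreeAlgebra.ι ℤ false) n]
    simp [teich, hn]
    noncomm_ring

end Pool.Agent.Results.MP_8dadf2_al.No
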